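import Mathlib

/-! Project AP (MP_68c2bd): a linear map all of whose powers have trace zero is nilpotent, and
Kolchin's theorem in the form: a group with a faithful representation by unipotent maps is
solvable. -/

set_option autoImplicit false

namespace Pool.Agent.H35.AP

open Module
open scoped commutatorElement

section Trace

variable {V : Type*} [AddCommGroup V] [Module ℝ V] [FiniteDimensional ℝ V]

/-- A linear map whose powers all have trace zero is nilpotent. -/
theorem nil_of_trace (x : Module.End ℝ V)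
    (h : ∀ j : ℕ, LinearMap.trace ℝ V (x ^ (j + 1)) = 0) : IsNilpotent x := by
  classical
  have hp0 : minpoly ℝ x ≠ 0 := minpoly.ne_zero (Algebra.IsIntegral.isIntegral x)
  obtain ⟨q, hq, hnd⟩ := Polynomial.exists_eq_pow_rootMultiplicity_mul_and_not_dvd
    (minpoly ℝ x) hp0 (0 : ℝ)
  obtain ⟨m, hm⟩ : ∃ m : ℕ, m = (minpoly ℝ x).rootMultiplicity 0 := ⟨_, rfl⟩
  rw [← hm] at hq
  have hcop : IsCoprime ((Polynomial.X - Polynomial.C (0 : ℝ)) ^ (m + 1)) q := by
    refine IsCoprime.pow_left ?_
    exact ((Polynomial.irreducible_X_sub_C (0 : ℝ)).coprime_iff_not_dvd).2 hnd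
  rw [Polynomial.C_0, sub_zero] at hcop hq
  obtain ⟨a, b, hab⟩ := hcop
  have hzero : Polynomial.aeval x (Polynomial.X ^ m * q) = 0 := by
    rw [← hq]
    exact minpoly.aeval ℝ x
  obtain ⟨e, he⟩ : ∃ e : Module.End ℝ V,
      e = Polynomial.aeval x (a * Polynomial.X ^ (m + 1)) := ⟨_, rfl⟩
  have h1e : 1 - e = Polynomial.aeval x (b * q) := by
    rw [he, sub_eq_iff_eq_add, ← map_add, add_comm, hab, map_one]
  have hidem : IsIdempotentElem e := by
    have h2 : e * (1 - e) = 0 := by
      rw [h1e, he, ← map_mul]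
      have : a * Polynomial.X ^ (m + 1) * (b * q) =
          (a * b * Polynomial.X) * (Polynomial.X ^ m * q) := by ring
      rw [this, map_mul, hzero, mul_zero]
    rw [mul_sub, mul_one, sub_eq_zero] at h2
    exact h2.symm
  have htr : ∀ c : Polynomial ℝ, LinearMap.trace ℝ V
      (Polynomial.aeval x (c * Polynomial.X ^ (m + 1))) = 0 := by
    intro c
    induction c using Polynomial.induction_on' with
    | add p q hp hq => rw [add_mul, map_add, map_add, hp, hq, add_zero]
    | monomial i r =>
      rw [← Polynomial.C_mul_X_pow_eq_monomial, mul_assoc, ← pow_add, map_mul,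
        Polynomial.aeval_C, map_pow, Polynomial.aeval_X, ← Algebra.smul_def, map_smul,
        ← add_assoc, h, smul_zero]
  have he0 : e = 0 := by
    refine LinearMap.IsIdempotentElem.eq_zero_of_trace_eq_zero hidem ?_
    rw [he]
    exact htr a
  refine ⟨m, ?_⟩
  have h3 : (x ^ m) * (1 - e) = 0 := by
    rw [h1e]
    have : (x ^ m : Module.End ℝ V) =
        Polynomial.aeval x ((Polynomial.X : Polynomial ℝ) ^ m) := by simp
    rw [this, ← map_mul]
    have h4 : (Polynomial.X : Polynomial ℝ) ^ m * (b * q) = b * (Polynomial.X ^ m * q) := by ring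
    rw [h4, map_mul, hzero, mul_zero]
  rw [he0, sub_zero, mul_one] at h3
  exact h3

theorem trace_of_unip {x : Module.End ℝ V} (hx : IsNilpotent (x - 1)) :
    LinearMap.trace ℝ V x = finrank ℝ V := by
  have h1 : LinearMap.trace ℝ V (x - 1) = 0 :=
    (LinearMap.isNilpotent_trace_of_isNilpotent hx).eq_zero
  rw [map_sub, sub_eq_zero, LinearMap.trace_one] at h1
  exact h1

end Trace

section Kolchin

variable {V : Type*} [AddCommGroup V] [Module ℝ V] [FiniteDimensional ℝ V]
variable {K : Type*} [Group K]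

/-- The span of the image of a representation, as an algebra. -/
noncomputable def kA (σ : K →* Module.End ℝ V) : Subalgebra ℝ (Module.End ℝ V) :=
  Algebra.adjoin ℝ (Set.range σ)

omit [FiniteDimensional ℝ V] in
theorem kA_mem (σ : K →* Module.End ℝ V) (k : K) : σ k ∈ kA σ :=
  Algebra.subset_adjoin ⟨k, rfl⟩

/-- The image of a group element in the algebra. -/
noncomputable def kE (σ : K →* Module.End ℝ V) (k : K) : kA σ := ⟨σ k, kA_mem σ k⟩

omit [FiniteDimensional ℝ V] in
theorem kE_mul (σ : K →* Module.End ℝ V) (a b : K) : kE σ (a * b) = kE σ a * kE σ b :=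
  Subtype.ext (map_mul σ a b)

omit [FiniteDimensional ℝ V] in
theorem kE_one (σ : K →* Module.End ℝ V) : kE σ 1 = 1 := Subtype.ext (map_one σ)

theorem kA_trace (σ : K →* Module.End ℝ V) (hu : ∀ k, IsNilpotent (σ k - 1)) (k : K) :
    ∀ z ∈ kA σ, LinearMap.trace ℝ V (z * (σ k - 1)) = 0 := by
  intro z hz
  have hz' : z ∈ Submodule.span ℝ (Set.range σ) := by
    have h1 : z ∈ Subalgebra.toSubmodule (kA σ) := hz
    rw [kA, Algebra.adjoin_eq_span] at h1
    have h2 : (Submonoid.closure (Set.range σ) : Set (Module.End ℝ V)) = Set.range σ := by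
      have : Submonoid.closure (Set.range σ) = MonoidHom.mrange σ := by
        rw [← MonoidHom.coe_mrange, Submonoid.closure_eq]
      rw [this, MonoidHom.coe_mrange]
    rwa [h2] at h1
  induction hz' using Submodule.span_induction with
  | mem x hx =>
    obtain ⟨a, rfl⟩ := hx
    rw [mul_sub, mul_one, ← map_mul, map_sub, trace_of_unip (hu _), trace_of_unip (hu _),
      sub_self]
  | zero => rw [zero_mul, map_zero]
  | add x y hx hy h1 h2 =>
    have e1 : x ∈ kA σ := by
      have h3 := Submodule.span_le.2 (show Set.range σ ⊆ (Subalgebra.toSubmodule (kA σ)) by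
        rintro _ ⟨a, rfl⟩
        exact kA_mem σ a) hx
      exact h3
    have e2 : y ∈ kA σ := by
      have h3 := Submodule.span_le.2 (show Set.range σ ⊆ (Subalgebra.toSubmodule (kA σ)) by
        rintro _ ⟨a, rfl⟩
        exact kA_mem σ a) hy
      exact h3
    rw [add_mul, map_add, h1 e1, h2 e2, add_zero]
  | smul c x hx h1 =>
    have e1 : x ∈ kA σ := by
      have h3 := Submodule.span_le.2 (show Set.range σ ⊆ (Subalgebra.toSubmodule (kA σ)) by
        rintro _ ⟨a, rfl⟩
        exact kA_mem σ a) hx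
      exact h3
    rw [smul_mul_assoc, map_smul, h1 e1, smul_zero]

theorem kJ_mem (σ : K →* Module.End ℝ V) (hu : ∀ k, IsNilpotent (σ k - 1)) (k : K) :
    kE σ k - 1 ∈ Ring.jacobson (kA σ) := by
  rw [← Ideal.jacobson_bot, Ideal.mem_jacobson_iff]
  intro y
  have hnil : IsNilpotent (y * (kE σ k - 1)) := by
    have h1 : IsNilpotent ((y * (kE σ k - 1) : kA σ) : Module.End ℝ V) := by
      refine nil_of_trace _ fun j => ?_
      have h2 : ((y * (kE σ k - 1) : kA σ) : Module.End ℝ V) ^ (j + 1) =
          (((y * (kE σ k - 1)) ^ j * y : kA σ) : Module.End ℝ V) * (σ k - 1) := by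
        rw [pow_succ]
        push_cast
        rw [mul_assoc]
        rfl
      rw [h2]
      exact kA_trace σ hu k _ (Subtype.property _)
    obtain ⟨m, hm⟩ := h1
    exact ⟨m, Subtype.ext (by rw [SubmonoidClass.coe_pow, hm]; rfl)⟩
  obtain ⟨u, hu'⟩ := hnil.isUnit_one_add
  refine ⟨(u⁻¹ : (kA σ)ˣ), ?_⟩
  have h3 : ((u⁻¹ : (kA σ)ˣ) : kA σ) * y * (kE σ k - 1) + ((u⁻¹ : (kA σ)ˣ) : kA σ) - 1 =
      ((u⁻¹ : (kA σ)ˣ) : kA σ) * (1 + y * (kE σ k - 1)) - 1 := by noncomm_ring
  rw [h3, ← hu', Units.inv_mul, sub_self]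
  exact Ideal.zero_mem _

theorem k_comm {A : Type*} [Ring A] (x y x' y' : A) (h1 : x * x' = 1) (h2 : y * y' = 1) :
    x * y * x' * y' - 1 = ((x - 1) * (y - 1) - (y - 1) * (x - 1)) * (x' * y') := by
  have e1 : (x - 1) * (y - 1) - (y - 1) * (x - 1) = x * y - y * x := by noncomm_ring
  have e2 : (1 : A) = y * x * (x' * y') := by
    calc (1 : A) = y * (x * x') * y' := by rw [h1, mul_one, h2]
      _ = y * x * (x' * y') := by simp only [mul_assoc]
  rw [e1, sub_mul, ← e2]
  simp only [mul_assoc]

/-- Kolchin's theorem, in the form that is used: a group with a faithful representation by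
unipotent maps is solvable. -/
theorem kolchin (σ : K →* Module.End ℝ V) (hσ : Function.Injective σ)
    (hu : ∀ k, IsNilpotent (σ k - 1)) : Group.IsSolvable K := by
  have : IsArtinianRing (kA σ) := IsArtinianRing.of_finite ℝ (kA σ)
  obtain ⟨N, hN⟩ := IsSemiprimaryRing.isNilpotent (R := kA σ)
  have key : ∀ e : ℕ, ∀ k ∈ derivedSeries K e, kE σ k - 1 ∈ Ring.jacobson (kA σ) ^ (e + 1) := by
    intro e
    induction e with
    | zero =>
      intro k _
      rw [zero_add, Submodule.pow_one]
      exact kJ_mem σ hu k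
    | succ e ih =>
      let D : Subgroup K :=
        { carrier := {k | kE σ k - 1 ∈ Ring.jacobson (kA σ) ^ (e + 1 + 1)}
          one_mem' := by
            rw [Set.mem_ofPred_eq, kE_one, sub_self]
            exact Ideal.zero_mem _
          mul_mem' := by
            intro a b ha hb
            rw [Set.mem_ofPred_eq] at ha hb ⊢
            have : kE σ (a * b) - 1 = kE σ a * (kE σ b - 1) + (kE σ a - 1) := by
              rw [kE_mul, mul_sub, mul_one]; abel
            rw [this]
            exact Ideal.add_mem _ (Ideal.mul_mem_left _ _ hb) ha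
          inv_mem' := by
            intro a ha
            rw [Set.mem_ofPred_eq] at ha ⊢
            have h1 : kE σ a⁻¹ * kE σ a = 1 := by rw [← kE_mul, inv_mul_cancel, kE_one]
            have : kE σ a⁻¹ - 1 = -(kE σ a⁻¹ * (kE σ a - 1)) := by
              rw [mul_sub, h1, mul_one, neg_sub]
            rw [this]
            exact Ideal.neg_mem_iff _ |>.2 (Ideal.mul_mem_left _ _ ha) }
      have hle : ⁅derivedSeries K e, derivedSeries K e⁆ ≤ D := by
        rw [Subgroup.commutator_le]
        intro a ha b hb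
        change kE σ ⁅a, b⁆ - 1 ∈ Ring.jacobson (kA σ) ^ (e + 1 + 1)
        have h1 : kE σ a⁻¹ * kE σ a = 1 := by rw [← kE_mul, inv_mul_cancel, kE_one]
        have h2 : kE σ a * kE σ a⁻¹ = 1 := by rw [← kE_mul, mul_inv_cancel, kE_one]
        have h4 : kE σ b * kE σ b⁻¹ = 1 := by rw [← kE_mul, mul_inv_cancel, kE_one]
        have h3 : kE σ ⁅a, b⁆ - 1 = ((kE σ a - 1) * (kE σ b - 1) - (kE σ b - 1) * (kE σ a - 1)) *
            (kE σ a⁻¹ * kE σ b⁻¹) := by
          rw [commutatorElement_def, kE_mul, kE_mul, kE_mul]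
          exact k_comm _ _ _ _ h2 h4
        rw [h3]
        have ha' := ih a ha
        have hb' := ih b hb
        have hab : (kE σ a - 1) * (kE σ b - 1) ∈ Ring.jacobson (kA σ) ^ (e + 1 + 1) := by
          rw [Submodule.pow_succ]
          exact Ideal.mul_mem_mul ha' (kJ_mem σ hu b)
        have hba : (kE σ b - 1) * (kE σ a - 1) ∈ Ring.jacobson (kA σ) ^ (e + 1 + 1) := by
          rw [Submodule.pow_succ]
          exact Ideal.mul_mem_mul hb' (kJ_mem σ hu a)
        exact Ideal.mul_mem_right _ _ (Ideal.sub_mem _ hab hba)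
      intro k hk
      rw [derivedSeries_succ] at hk
      exact hle hk
  refine ⟨N, ?_⟩
  rw [eq_bot_iff]
  intro k hk
  have h1 := key N k hk
  have h2 : kE σ k - 1 = 0 := by
    rw [Submodule.pow_succ, hN] at h1
    simpa using h1
  rw [Subgroup.mem_bot]
  apply hσ
  have h3 := congrArg Subtype.val (sub_eq_zero.1 h2)
  rw [map_one]
  exact h3

end Kolchin

end Pool.Agent.H35.AP
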