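import Mathlib
import Pool.Agent.H35.AP.Kol

/-! Project AP (MP_68c2bd): a torsion-free non-solvable group which acts properly discontinuously
has an element in its commutator subgroup whose generalised `1`-eigenspace has codimension at
least two. -/

set_option autoImplicit false

namespace Pool.Agent.H35.AP

open Module
open scoped commutatorElement

section Lin

variable {V : Type*} [AddCommGroup V] [Module ℝ V] [FiniteDimensional ℝ V]

/-- A linear map of determinant one with all but at most one eigenvalues equal to one is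
unipotent. -/
theorem unip_of_det (x : Module.End ℝ V) (hdet : LinearMap.det x = 1) (N : ℕ)
    (hV : finrank ℝ V ≤ finrank ℝ (Module.End.genEigenspace x 1 N) + 1) :
    IsNilpotent (x - 1) := by
  classical
  by_cases hd0 : finrank ℝ V = 0
  · have := finrank_zero_iff.1 hd0
    exact ⟨1, LinearMap.ext fun v => Subsingleton.elim _ _⟩
  obtain ⟨d, hd⟩ : ∃ d, finrank ℝ V = d + 1 := ⟨finrank ℝ V - 1, by omega⟩
  have hm : d ≤ x.charpoly.rootMultiplicity 1 := by
    have h1 := LinearMap.finrank_genEigenspace_le x 1 N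
    omega
  have hmon : x.charpoly.Monic := x.charpoly_monic
  have hdeg : x.charpoly.natDegree = d + 1 := by rw [LinearMap.charpoly_natDegree, hd]
  have hdvd : (Polynomial.X - Polynomial.C (1 : ℝ)) ^ d ∣ x.charpoly :=
    (pow_dvd_pow _ hm).trans (Polynomial.pow_rootMultiplicity_dvd _ _)
  obtain ⟨q, hq⟩ := hdvd
  have hXm : ((Polynomial.X - Polynomial.C (1 : ℝ)) ^ d).Monic :=
    (Polynomial.monic_X_sub_C (1 : ℝ)).pow d
  have hqm : q.Monic := hXm.of_mul_monic_left (hq ▸ hmon)
  have hqd : q.natDegree = 1 := by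
    have h1 := hXm.natDegree_mul hqm
    rw [← hq, hdeg, Polynomial.natDegree_pow, Polynomial.natDegree_X_sub_C] at h1
    omega
  have hq1 : q = Polynomial.X + Polynomial.C (q.coeff 0) := by
    have h1 := Polynomial.eq_X_add_C_of_natDegree_le_one hqd.le
    have h2 : q.coeff 1 = 1 := by
      have h3 := hqm.coeff_natDegree
      rwa [hqd] at h3
    rw [h2, Polynomial.C_1, one_mul] at h1
    exact h1
  have hc : q.coeff 0 = -1 := by
    have h1 := LinearMap.det_eq_sign_charpoly_coeff x
    rw [hdet, hd, hq, Polynomial.mul_coeff_zero, Polynomial.coeff_zero_eq_eval_zero,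
      Polynomial.eval_pow, Polynomial.eval_sub, Polynomial.eval_X, Polynomial.eval_C,
      zero_sub, ← mul_assoc, ← pow_add] at h1
    have h2 : ((-1 : ℝ)) ^ (d + 1 + d) = -1 := by
      have : Odd (d + 1 + d) := ⟨d, by ring⟩
      exact this.neg_one_pow
    rw [h2] at h1
    linarith
  have hp : x.charpoly = (Polynomial.X - Polynomial.C (1 : ℝ)) ^ (d + 1) := by
    rw [hq, pow_succ]
    congr 1
    rw [hq1, hc, Polynomial.C_neg, sub_eq_add_neg]
  refine ⟨d + 1, ?_⟩
  have h1 := x.aeval_self_charpoly
  rw [hp, map_pow, map_sub, Polynomial.aeval_X, Polynomial.aeval_C, map_one] at h1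
  exact h1

end Lin

section Key

variable {E : Type*} [NormedAddCommGroup E] [NormedSpace ℝ E] [FiniteDimensional ℝ E]
variable {H : Type*} [Group H]

/-- The restriction of a representation to an invariant subspace. -/
noncomputable def res (σ : H →* Module.End ℝ E) (M : Submodule ℝ E)
    (hM : ∀ h, ∀ x ∈ M, σ h x ∈ M) : H →* Module.End ℝ M where
  toFun h := (σ h).restrict (hM h)
  map_one' := by ext x; simp
  map_mul' a b := by ext x; simp

omit [FiniteDimensional ℝ E] in
theorem res_apply (σ : H →* Module.End ℝ E) (M : Submodule ℝ E)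
    (hM : ∀ h, ∀ x ∈ M, σ h x ∈ M) (h : H) (x : M) : ((res σ M hM h x : M) : E) = σ h x := rfl

omit [FiniteDimensional ℝ E] in
theorem res_pow (σ : H →* Module.End ℝ E) (M : Submodule ℝ E)
    (hM : ∀ h, ∀ x ∈ M, σ h x ∈ M) (h : H) (m : ℕ) (x : M) :
    ((((res σ M hM h - 1) ^ m) x : M) : E) = ((σ h - 1) ^ m) x := by
  induction m generalizing x with
  | zero => simp
  | succ m ih =>
    rw [pow_succ, pow_succ]
    have h1 : ((res σ M hM h - 1) ^ m * (res σ M hM h - 1)) x =
      ((res σ M hM h - 1) ^ m) ((res σ M hM h - 1) x) := rfl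
    rw [h1, ih]
    rfl

theorem key (htf : ∀ h : H, h ≠ 1 → ∀ m : ℕ, 0 < m → h ^ m ≠ 1) (hns : ¬ Group.IsSolvable H)
    (σ : H →* Module.End ℝ E) (τ : E →ₗ[ℝ] ℝ) (M : Submodule ℝ E)
    (hM : ∀ h, ∀ x ∈ M, σ h x ∈ M) (hx : ∃ x ∈ M, τ x = 1)
    (hfin : ∀ R : ℝ, {h : H | ∃ x ∈ M, τ x = 1 ∧ ‖x‖ ≤ R ∧ ‖σ h x‖ ≤ R}.Finite) (N : ℕ) :
    ∃ h ∈ commutator H, h ≠ 1 ∧
      finrank ℝ (M ⊓ LinearMap.ker ((σ h - 1) ^ N) : Submodule ℝ E) + 2 ≤ finrank ℝ M := by
  classical
  by_contra hcon
  push Not at hcon
  -- the restriction is faithful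
  have hinj : ∀ h, res σ M hM h = 1 → h = 1 := by
    intro h h1
    by_contra hne
    obtain ⟨x, hxM, hx1⟩ := hx
    have hfix : ∀ m : ℕ, σ (h ^ m) x = x := by
      intro m
      have h2 : res σ M hM (h ^ m) = 1 := by rw [map_pow, h1, one_pow]
      have h3 := congrArg (fun f : Module.End ℝ M => ((f ⟨x, hxM⟩ : M) : E)) h2
      exact h3
    have hI : Function.Injective (fun m : ℕ => h ^ m) := by
      intro a b hab
      by_contra hne'
      wlog hlt : a < b generalizing a b
      · exact this hab.symm (Ne.symm hne') (by omega)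
      have h4 : h ^ (b - a) = 1 := by
        have h5 : h ^ b = h ^ (b - a) * h ^ a := by rw [← pow_add, Nat.sub_add_cancel hlt.le]
        have h6 : h ^ a = h ^ b := hab
        rw [h5] at h6
        have h7 : 1 * h ^ a = h ^ (b - a) * h ^ a := by rw [one_mul]; exact h6
        exact (mul_right_cancel h7).symm
      exact htf h hne (b - a) (by omega) h4
    refine Set.infinite_range_of_injective hI ((hfin ‖x‖).subset ?_)
    rintro _ ⟨m, rfl⟩
    exact ⟨x, hxM, hx1, le_refl _, by
      change ‖σ (h ^ m) x‖ ≤ ‖x‖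
      rw [hfix]⟩
  -- determinants
  have hdet : ∀ h ∈ commutator H, LinearMap.det (res σ M hM h) = 1 := by
    intro h hh
    have h1 := Abelianization.commutator_subset_ker
      ((LinearMap.det : Module.End ℝ M →* ℝ).comp (res σ M hM)).toHomUnits hh
    rw [MonoidHom.mem_ker] at h1
    have h2 := congrArg (Units.val) h1
    exact h2
  -- unipotent
  have hun : ∀ h ∈ commutator H, IsNilpotent (res σ M hM h - 1) := by
    intro h hh
    by_cases h1 : h = 1
    · rw [h1, map_one, sub_self]
      exact IsNilpotent.zero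
    refine unip_of_det _ (hdet h hh) N ?_
    have h2 := hcon h hh h1
    have h3 : Submodule.comap M.subtype (LinearMap.ker ((σ h - 1) ^ N)) =
        Module.End.genEigenspace (res σ M hM h) 1 N := by
      ext x
      rw [Submodule.mem_comap, LinearMap.mem_ker, Module.End.mem_genEigenspace_nat, one_smul,
        LinearMap.mem_ker]
      rw [← Submodule.coe_eq_zero (x := ((res σ M hM h - 1) ^ N) x), res_pow]
      rfl
    have h4 : finrank ℝ (M ⊓ LinearMap.ker ((σ h - 1) ^ N) : Submodule ℝ E) =
        finrank ℝ (Module.End.genEigenspace (res σ M hM h) 1 N) := by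
      rw [← h3, ← Submodule.map_comap_subtype, Submodule.finrank_map_subtype_eq]
    omega
  have hsolv : Group.IsSolvable (commutator H) := by
    refine kolchin ((res σ M hM).comp (commutator H).subtype) ?_ ?_
    · rw [injective_iff_map_eq_one]
      rintro ⟨h, hh⟩ h1
      exact Subtype.ext (hinj h h1)
    · rintro ⟨h, hh⟩
      exact hun h hh
  refine hns (Group.isSolvable_of_ker_le_range (commutator H).subtype (Abelianization.of (G := H)) ?_)
  intro x hx
  rw [Subgroup.range_subtype]
  exact (QuotientGroup.eq_one_iff x).1 hx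

end Key

end Pool.Agent.H35.AP
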