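import Mathlib
import Pool.Agent.H71.AU.Defs
import Pool.Agent.H71.AU.Fit
import Pool.Agent.H71.AU.Core
import Pool.Agent.H71.AU.Main

/-! Project AP (MP_68c2bd): the rank bound for properly discontinuous affine actions of free
abelian groups, on the joint generalised `1`-eigenspace. -/

set_option autoImplicit false

namespace Pool.Agent.H35.AP

open Module Pool.Agent.H71.AU

theorem rank {E : Type*} [NormedAddCommGroup E] [NormedSpace ℝ E] [FiniteDimensional ℝ E]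
    (r : ℕ) (σ : Multiplicative (Fin r → ℤ) →* Module.End ℝ E) (τ : E →ₗ[ℝ] ℝ)
    (hτ : ∀ g x, τ (σ g x) = τ x) (h0 : τ ≠ 0)
    (hfin : ∀ R : ℝ, {g : Multiplicative (Fin r → ℤ) |
      ∃ x, τ x = 1 ∧ ‖x‖ ≤ R ∧ ‖σ g x‖ ≤ R}.Finite) :
    r + 1 ≤ finrank ℝ (⨅ a : Multiplicative (Fin r → ℤ),
      LinearMap.ker ((σ a - 1) ^ (finrank ℝ E + 1)) : Submodule ℝ E) := by
  classical
  obtain ⟨N, hN⟩ : ∃ N : ℕ, N = finrank ℝ E + 1 := ⟨_, rfl⟩
  rw [← hN]
  obtain ⟨x₀, hx₀, hx₀A⟩ := fit (Set.range σ)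
    (by
      rintro _ ⟨a, rfl⟩ _ ⟨b, rfl⟩
      change σ a * σ b = σ b * σ a
      rw [← map_mul, ← map_mul, mul_comm]) τ
    (by
      rintro _ ⟨a, rfl⟩ y
      exact hτ a y) h0
  rw [← hN] at hx₀A
  obtain ⟨M, hMdef⟩ : ∃ M : Submodule ℝ E, M = ⨅ a : Multiplicative (Fin r → ℤ),
      LinearMap.ker ((σ a - 1) ^ N) := ⟨_, rfl⟩
  rw [← hMdef]
  have hmem : ∀ y, y ∈ M ↔ ∀ a, ((σ a - 1) ^ N) y = 0 := by
    intro y
    rw [hMdef]
    simp only [Submodule.mem_iInf, LinearMap.mem_ker]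
  have hM : ∀ g, ∀ y ∈ M, σ g y ∈ M := by
    intro g y hy
    rw [hmem] at hy ⊢
    intro a
    have hc : Commute (σ g) (σ a - 1) := by
      refine Commute.sub_right ?_ (Commute.one_right _)
      change σ g * σ a = σ a * σ g
      rw [← map_mul, ← map_mul, mul_comm]
    have h2 : ((σ a - 1) ^ N) (σ g y) = σ g (((σ a - 1) ^ N) y) := by
      have := congrArg (fun φ : Module.End ℝ E => φ y) (hc.pow_right N).eq
      simpa using this.symm
    rw [h2, hy, map_zero]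
  have hx₀M : x₀ ∈ M := by
    rw [hmem]
    intro a
    exact hx₀A _ ⟨a, rfl⟩
  obtain ⟨π, hπ⟩ : ∃ π : Multiplicative (Fin r → ℤ) →* (M →L[ℝ] M), π = main_res σ M hM :=
    ⟨_, rfl⟩
  have hπa : ∀ g (x : M), ((π g x : M) : E) = σ g x := by
    intro g x
    rw [hπ]
    rfl
  let t : M →L[ℝ] ℝ := (LinearMap.toContinuousLinearMap τ).comp M.subtypeL
  have ht : ∀ x : M, t x = τ x := fun x => rfl
  have hprop : ∀ R : ℝ, {g | ∃ x, t x = 1 ∧ ‖x‖ ≤ R ∧ ‖π g x‖ ≤ R}.Finite := by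
    intro R
    refine (hfin R).subset ?_
    rintro g ⟨x, h1, h2, h3⟩
    refine ⟨x, h1, h2, ?_⟩
    rw [← hπa]
    exact h3
  have hA : ∀ a ∈ (⊤ : Subgroup (Multiplicative (Fin r → ℤ))),
      ∀ b ∈ (⊤ : Subgroup (Multiplicative (Fin r → ℤ))), a * b = b * a :=
    fun a _ b _ => mul_comm a b
  have hu : ∀ a ∈ (⊤ : Subgroup (Multiplicative (Fin r → ℤ))), IsNilpotent (π a - 1) := by
    intro a _
    refine ⟨N, ?_⟩
    ext1 x
    apply Subtype.ext
    rw [hπ, main_res_pow]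
    exact (hmem _).1 x.2 a
  have hx₀t : t ⟨x₀, hx₀M⟩ = 1 := hx₀
  let f : (Fin r → ℤ) →+ Additive (⊤ : Subgroup (Multiplicative (Fin r → ℤ))) :=
    { toFun := fun z => Additive.ofMul ⟨Multiplicative.ofAdd z, Subgroup.mem_top _⟩
      map_zero' := rfl
      map_add' := fun _ _ => rfl }
  have hf : Function.Injective f := by
    intro a b hab
    have h1 : (⟨Multiplicative.ofAdd a, Subgroup.mem_top _⟩ :
        (⊤ : Subgroup (Multiplicative (Fin r → ℤ)))) = ⟨Multiplicative.ofAdd b, Subgroup.mem_top _⟩ :=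
      Additive.ofMul.injective hab
    exact Multiplicative.ofAdd.injective (congrArg Subtype.val h1)
  have hrank := core_rank (τ := t) hA hu hprop hx₀t r f hf
  -- the evaluation map at the base point is injective on the span of the logarithms
  obtain ⟨S, hS⟩ : ∃ S : Submodule ℝ (M →L[ℝ] M),
      S = Submodule.span ℝ (core_Lam π ⊤ hA hu : Set (M →L[ℝ] M)) := ⟨_, rfl⟩
  rw [← hS] at hrank
  have htX : ∀ X ∈ S, ∀ y, t (X y) = 0 := by
    intro X hX
    rw [hS] at hX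
    exact core_span_tau (τ := t) hA hu (fun g y => by rw [ht, hπa, hτ, ht]) X hX
  have hXinj : ∀ X ∈ S, X ⟨x₀, hx₀M⟩ = 0 → X = 0 := by
    intro X hX h1
    rw [hS] at hX
    exact core_inj (τ := t) hA hu hprop hX hx₀t h1
  obtain ⟨T, hT⟩ : ∃ T : M →ₗ[ℝ] ℝ, T = τ.comp M.subtype := ⟨_, rfl⟩
  have hTt : ∀ x, T x = t x := fun x => by rw [hT]; rfl
  let e0 : S →ₗ[ℝ] M :=
    { toFun := fun X => (X : M →L[ℝ] M) ⟨x₀, hx₀M⟩
      map_add' := fun X Y => rfl
      map_smul' := fun c X => rfl }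
  have he0 : ∀ X : S, e0 X = (X : M →L[ℝ] M) ⟨x₀, hx₀M⟩ := fun X => rfl
  have hinj : Function.Injective e0 := by
    intro X Y hXY
    rw [he0, he0] at hXY
    have h3 : ((X : M →L[ℝ] M) - (Y : M →L[ℝ] M)) ⟨x₀, hx₀M⟩ = 0 := by
      rw [ContinuousLinearMap.sub_apply, hXY, sub_self]
    exact Subtype.ext (sub_eq_zero.1 (hXinj _ (S.sub_mem X.2 Y.2) h3))
  have hle : LinearMap.range e0 ≤ LinearMap.ker T := by
    rintro _ ⟨X, rfl⟩
    rw [LinearMap.mem_ker, he0, hTt, htX X X.2]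
  have h1 : finrank ℝ S ≤ finrank ℝ (LinearMap.ker T) := by
    rw [← LinearMap.finrank_range_of_inj hinj]
    exact Submodule.finrank_mono hle
  have hsurj : Function.Surjective T := by
    intro c
    refine ⟨c • ⟨x₀, hx₀M⟩, ?_⟩
    rw [map_smul, hTt, hx₀t, smul_eq_mul, mul_one]
  have h2 := LinearMap.finrank_range_add_finrank_ker T
  rw [LinearMap.range_eq_top.2 hsurj, finrank_top, finrank_self] at h2
  omega

end Pool.Agent.H35.AP
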