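import Mathlib
import Pool.Agent.H71.AU.Fit
import Pool.Agent.H71.AU.Main
import Pool.Agent.H35.AP.Key
import Pool.Agent.H35.AP.Rank

/-! Project AP (MP_68c2bd): products of torsion-free non-solvable groups acting properly
discontinuously by affine maps. -/

set_option autoImplicit false

namespace Pool.Agent.H35.AP

open Module Pool.Agent.H71.AU
open scoped commutatorElement

section Lin

variable {E : Type*} [NormedAddCommGroup E] [NormedSpace ℝ E] [FiniteDimensional ℝ E]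
variable {k l : ℕ} {H : Fin k → Type} [∀ i, Group (H i)]

omit [FiniteDimensional ℝ E] in
theorem ker_inv {a b : Module.End ℝ E} (h : Commute a b) (N : ℕ) :
    ∀ x ∈ LinearMap.ker ((b - 1) ^ N), a x ∈ LinearMap.ker ((b - 1) ^ N) := by
  intro x hx
  rw [LinearMap.mem_ker] at hx ⊢
  have hc : Commute a ((b - 1) ^ N) := (h.sub_right (Commute.one_right _)).pow_right N
  have h2 : ((b - 1) ^ N) (a x) = a (((b - 1) ^ N) x) := by
    have := congrArg (fun φ : Module.End ℝ E => φ x) hc.eq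
    simpa using this.symm
  rw [h2, hx, map_zero]

/-- The inclusion of a factor. -/
def emb (i : Fin k) : H i →* ((∀ i, H i) × Multiplicative (Fin l → ℤ)) :=
  (MonoidHom.inl _ _).comp (MonoidHom.mulSingle H i)

theorem emb_apply (i : Fin k) (h : H i) :
    (emb i h : (∀ i, H i) × Multiplicative (Fin l → ℤ)) = (Pi.mulSingle i h, 1) := rfl

theorem emb_inj (i : Fin k) : Function.Injective
    (emb i : H i →* ((∀ i, H i) × Multiplicative (Fin l → ℤ))) := by
  intro a b hab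
  have h1 := congrArg Prod.fst hab
  exact Pi.mulSingle_injective i h1

theorem emb_comm {i j : Fin k} (hij : i ≠ j) (a : H i) (b : H j) :
    Commute (emb i a : (∀ i, H i) × Multiplicative (Fin l → ℤ)) (emb j b) := by
  rw [emb_apply, emb_apply]
  exact Prod.ext (Pi.mulSingle_commute hij a b).eq rfl

theorem emb_comm' (γ : ∀ i, H i) (i j : Fin k) :
    Commute (emb i (γ i) : (∀ i, H i) × Multiplicative (Fin l → ℤ)) (emb j (γ j)) := by
  by_cases hij : i = j
  · subst hij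
    exact Commute.refl _
  · exact emb_comm hij _ _

variable (ρ : ((∀ i, H i) × Multiplicative (Fin l → ℤ)) →* Module.End ℝ E) (τ : E →ₗ[ℝ] ℝ)

/-- The joint generalised eigenspace. -/
noncomputable def Ms (γ : ∀ i, H i) (s : Finset (Fin k)) : Submodule ℝ E :=
  ⨅ i ∈ s, LinearMap.ker ((ρ (emb i (γ i)) - 1) ^ (finrank ℝ E + 1))

omit [FiniteDimensional ℝ E] in
theorem Ms_mem (γ : ∀ i, H i) (s : Finset (Fin k)) (x : E) : x ∈ Ms ρ γ s ↔
    ∀ i ∈ s, x ∈ LinearMap.ker ((ρ (emb i (γ i)) - 1) ^ (finrank ℝ E + 1)) := by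
  rw [Ms]
  simp only [Submodule.mem_iInf]

theorem Ms_inv (γ : ∀ i, H i) (s : Finset (Fin k)) (a : Module.End ℝ E)
    (ha : ∀ i ∈ s, Commute a (ρ (emb i (γ i)))) : ∀ x ∈ Ms ρ γ s, a x ∈ Ms ρ γ s := by
  intro x hx
  rw [Ms_mem] at hx ⊢
  intro i hi
  exact ker_inv (ha i hi) _ x (hx i hi)

include τ in
theorem Ms_ne (hτ : ∀ g x, τ (ρ g x) = τ x) (h0 : τ ≠ 0) (γ : ∀ i, H i) (s : Finset (Fin k)) :
    ∃ x ∈ Ms ρ γ s, τ x = 1 := by
  obtain ⟨x₀, hx₀, hx₀A⟩ := fit (Set.range fun i => ρ (emb i (γ i)))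
    (by
      rintro _ ⟨i, rfl⟩ _ ⟨j, rfl⟩
      exact (emb_comm' γ i j).map ρ) τ
    (by
      rintro _ ⟨i, rfl⟩ y
      exact hτ _ y) h0
  refine ⟨x₀, ?_, hx₀⟩
  rw [Ms_mem]
  intro i _
  exact LinearMap.mem_ker.2 (hx₀A _ ⟨i, rfl⟩)

theorem drop (hH : ∀ i, (∀ h : H i, h ≠ 1 → ∀ m : ℕ, 0 < m → h ^ m ≠ 1) ∧
      ¬ Group.IsSolvable (H i))
    (hτ : ∀ g x, τ (ρ g x) = τ x) (h0 : τ ≠ 0)
    (hfin : ∀ R : ℝ, {g : (∀ i, H i) × Multiplicative (Fin l → ℤ) |
      ∃ x, τ x = 1 ∧ ‖x‖ ≤ R ∧ ‖ρ g x‖ ≤ R}.Finite) (s : Finset (Fin k)) :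
    ∃ γ : ∀ i, H i, (∀ i ∈ s, γ i ∈ commutator (H i) ∧ γ i ≠ 1) ∧
      finrank ℝ (Ms ρ γ s) + 2 * s.card ≤ finrank ℝ E := by
  classical
  induction s using Finset.induction_on with
  | empty =>
    refine ⟨fun i => 1, fun i hi => absurd hi (Finset.notMem_empty i), ?_⟩
    rw [Finset.card_empty, mul_zero, add_zero]
    exact Submodule.finrank_le _
  | insert j s hj ih =>
    obtain ⟨γ, hγ, hd⟩ := ih
    obtain ⟨h, hh, h1, hdrop⟩ := key (hH j).1 (hH j).2 (ρ.comp (emb j)) τ (Ms ρ γ s)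
      (by
        intro h
        refine Ms_inv ρ γ s _ ?_
        intro i hi
        have hij : j ≠ i := by
          rintro rfl
          exact hj hi
        exact (emb_comm hij h (γ i)).map ρ)
      (Ms_ne ρ τ hτ h0 γ s)
      (by
        intro R
        refine ((hfin R).preimage (f := emb j) ((emb_inj j).injOn)).subset ?_
        rintro g ⟨x, -, h2, h3, h4⟩
        exact ⟨x, h2, h3, h4⟩)
      (finrank ℝ E + 1)
    refine ⟨Function.update γ j h, ?_, ?_⟩
    · intro i hi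
      by_cases hij : i = j
      · subst hij
        rw [Function.update_self]
        exact ⟨hh, h1⟩
      · rw [Function.update_of_ne hij]
        exact hγ i (by
          rcases Finset.mem_insert.1 hi with h2 | h2
          · exact absurd h2 hij
          · exact h2)
    · have hM : Ms ρ (Function.update γ j h) (insert j s) =
          Ms ρ γ s ⊓ LinearMap.ker (((ρ.comp (emb j)) h - 1) ^ (finrank ℝ E + 1)) := by
        ext x
        rw [Submodule.mem_inf, Ms_mem, Ms_mem]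
        constructor
        · intro hx
          refine ⟨fun i hi => ?_, ?_⟩
          · have hij : i ≠ j := by
              rintro rfl
              exact hj hi
            have h2 := hx i (Finset.mem_insert_of_mem hi)
            rwa [Function.update_of_ne hij] at h2
          · have h2 := hx j (Finset.mem_insert_self j s)
            rwa [Function.update_self] at h2
        · rintro ⟨h2, h3⟩ i hi
          by_cases hij : i = j
          · subst hij
            rw [Function.update_self]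
            exact h3
          · rw [Function.update_of_ne hij]
            exact h2 i (by
              rcases Finset.mem_insert.1 hi with h4 | h4
              · exact absurd h4 hij
              · exact h4)
      rw [hM, Finset.card_insert_of_notMem hj]
      omega

/-- The free abelian group generated by the `γ i` and by the free abelian factor. -/
def psi (γ : ∀ i, H i) :
    Multiplicative (Fin (k + l) → ℤ) →* ((∀ i, H i) × Multiplicative (Fin l → ℤ)) where
  toFun z := (fun i => γ i ^ (Multiplicative.toAdd z (Fin.castAdd l i)),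
    Multiplicative.ofAdd fun j => Multiplicative.toAdd z (Fin.natAdd k j))
  map_one' := by
    refine Prod.ext (funext fun i => ?_) rfl
    change γ i ^ (0 : ℤ) = 1
    exact zpow_zero _
  map_mul' a b := by
    refine Prod.ext (funext fun i => ?_) rfl
    change γ i ^ (Multiplicative.toAdd a (Fin.castAdd l i) +
      Multiplicative.toAdd b (Fin.castAdd l i)) = _
    rw [zpow_add]
    rfl

theorem psi_inj (γ : ∀ i, H i) (htf : ∀ i, ∀ h : H i, h ≠ 1 → ∀ m : ℕ, 0 < m → h ^ m ≠ 1)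
    (hγ : ∀ i, γ i ≠ 1) : Function.Injective (psi (l := l) γ) := by
  rw [injective_iff_map_eq_one]
  intro z hz
  have h1 : ∀ i, γ i ^ (Multiplicative.toAdd z (Fin.castAdd l i)) = 1 := fun i =>
    congrFun (congrArg Prod.fst hz) i
  have h2 : (fun j => Multiplicative.toAdd z (Fin.natAdd k j)) = 0 :=
    Multiplicative.ofAdd.injective (congrArg Prod.snd hz)
  have h3 : ∀ i, Multiplicative.toAdd z (Fin.castAdd l i) = 0 := by
    intro i
    by_contra hne
    have h4 : γ i ^ (Multiplicative.toAdd z (Fin.castAdd l i)).natAbs = 1 := by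
      rcases Int.natAbs_eq (Multiplicative.toAdd z (Fin.castAdd l i)) with h5 | h5
      · have h6 := h1 i
        rw [h5, zpow_natCast] at h6
        exact h6
      · have h6 := h1 i
        rw [h5, zpow_neg, zpow_natCast, inv_eq_one] at h6
        exact h6
    exact htf i (γ i) (hγ i) _ (Int.natAbs_pos.2 hne) h4
  have h7 : Multiplicative.toAdd z = 0 := by
    funext i
    refine Fin.addCases (fun i => ?_) (fun j => ?_) i
    · exact h3 i
    · exact congrFun h2 j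
  exact Multiplicative.toAdd.injective h7

theorem psi_single (γ : ∀ i, H i) (i : Fin k) :
    psi (l := l) γ (Multiplicative.ofAdd (Pi.single (Fin.castAdd l i) 1)) = emb i (γ i) := by
  classical
  rw [emb_apply]
  refine Prod.ext (funext fun j => ?_) ?_
  · change γ j ^ ((Pi.single (Fin.castAdd l i) (1 : ℤ) : Fin (k + l) → ℤ) (Fin.castAdd l j)) =
      (Pi.mulSingle i (γ i) : ∀ i, H i) j
    by_cases hij : j = i
    · subst hij
      rw [Pi.single_eq_same, Pi.mulSingle_eq_same, zpow_one]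
    · rw [Pi.mulSingle_eq_of_ne hij, Pi.single_eq_of_ne, zpow_zero]
      intro h
      exact hij (Fin.castAdd_injective k l h)
  · change Multiplicative.ofAdd (fun j : Fin l =>
      (Pi.single (Fin.castAdd l i) (1 : ℤ) : Fin (k + l) → ℤ) (Fin.natAdd k j)) = 1
    have : (fun j : Fin l =>
      (Pi.single (Fin.castAdd l i) (1 : ℤ) : Fin (k + l) → ℤ) (Fin.natAdd k j)) = 0 := by
      funext j
      rw [Pi.single_eq_of_ne]
      · rfl
      · intro h
        have h1 := congrArg Fin.val h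
        simp only [Fin.val_natAdd, Fin.val_castAdd] at h1
        omega
    rw [this]
    rfl

theorem lin (hH : ∀ i, (∀ h : H i, h ≠ 1 → ∀ m : ℕ, 0 < m → h ^ m ≠ 1) ∧
      ¬ Group.IsSolvable (H i))
    (hτ : ∀ g x, τ (ρ g x) = τ x) (h0 : τ ≠ 0)
    (hfin : ∀ R : ℝ, {g : (∀ i, H i) × Multiplicative (Fin l → ℤ) |
      ∃ x, τ x = 1 ∧ ‖x‖ ≤ R ∧ ‖ρ g x‖ ≤ R}.Finite) :
    ∃ γ : ∀ i, H i, (∀ i, γ i ∈ commutator (H i) ∧ γ i ≠ 1) ∧
      finrank ℝ (Ms ρ γ Finset.univ) + 2 * k ≤ finrank ℝ E ∧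
      k + l + 1 ≤ finrank ℝ (Ms ρ γ Finset.univ) := by
  obtain ⟨γ, hγ, hd⟩ := drop ρ τ hH hτ h0 hfin Finset.univ
  rw [Finset.card_univ, Fintype.card_fin] at hd
  refine ⟨γ, fun i => hγ i (Finset.mem_univ i), hd, ?_⟩
  have hr := rank (k + l) (ρ.comp (psi γ)) τ (fun g x => hτ _ x) h0 (by
    intro R
    refine ((hfin R).preimage (f := psi γ) ((psi_inj γ (fun i => (hH i).1)
      (fun i => (hγ i (Finset.mem_univ i)).2)).injOn)).subset ?_
    rintro g ⟨x, h2, h3, h4⟩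
    exact ⟨x, h2, h3, h4⟩)
  refine hr.trans (Submodule.finrank_mono ?_)
  intro x hx
  rw [Submodule.mem_iInf] at hx
  rw [Ms_mem]
  intro i _
  have h1 := hx (Multiplicative.ofAdd (Pi.single (Fin.castAdd l i) 1))
  rwa [MonoidHom.comp_apply, psi_single] at h1

end Lin

/-- The affine statement. -/
theorem main (n k l : ℕ) (Γ : Subgroup ((Fin n → ℝ) ≃ᵃ[ℝ] (Fin n → ℝ)))
    (hprop : ∀ K : Set (Fin n → ℝ), IsCompact K →
      {g : (Fin n → ℝ) ≃ᵃ[ℝ] (Fin n → ℝ) | g ∈ Γ ∧ (⇑g '' K ∩ K).Nonempty}.Finite)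
    (H : Fin k → Type) [∀ i, Group (H i)]
    (hH : ∀ i, (∀ h : H i, h ≠ 1 → ∀ m : ℕ, 0 < m → h ^ m ≠ 1) ∧ ¬ Group.IsSolvable (H i))
    (f : ((∀ i, H i) × Multiplicative (Fin l → ℤ)) →* Γ) (hf : Function.Injective f) :
    3 * k + l ≤ n ∧ ∃ γ : ∀ i, H i, (∀ i, γ i ∈ commutator (H i) ∧ γ i ≠ 1) ∧
      ∃ F : AffineSubspace ℝ (Fin n → ℝ), (F : Set (Fin n → ℝ)).Nonempty ∧
        finrank ℝ F.direction + 2 * k ≤ n ∧
        ∀ g : (Fin n → ℝ) ≃ᵃ[ℝ] (Fin n → ℝ),
          (∀ i, g * (f (Pi.mulSingle i (γ i), 1) : (Fin n → ℝ) ≃ᵃ[ℝ] (Fin n → ℝ)) =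
            (f (Pi.mulSingle i (γ i), 1) : (Fin n → ℝ) ≃ᵃ[ℝ] (Fin n → ℝ)) * g) →
          ∀ x ∈ F, g x ∈ F := by
  classical
  obtain ⟨ρ, hρ⟩ : ∃ ρ : ((∀ i, H i) × Multiplicative (Fin l → ℤ)) →*
      Module.End ℝ ((Fin n → ℝ) × ℝ), ρ = main_hat.comp (Γ.subtype.comp f) := ⟨_, rfl⟩
  have hρa : ∀ g, ρ g = main_hat ((f g : Γ) : (Fin n → ℝ) ≃ᵃ[ℝ] (Fin n → ℝ)) := by
    intro g
    rw [hρ]
    rfl
  have hfinr : finrank ℝ ((Fin n → ℝ) × ℝ) = n + 1 := by simp
  have h0 : LinearMap.snd ℝ (Fin n → ℝ) ℝ ≠ 0 := by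
    intro h
    have := congrArg (fun φ : ((Fin n → ℝ) × ℝ) →ₗ[ℝ] ℝ => φ (0, 1)) h
    simp at this
  have hτ : ∀ g x, LinearMap.snd ℝ (Fin n → ℝ) ℝ (ρ g x) = LinearMap.snd ℝ (Fin n → ℝ) ℝ x := by
    intro g x
    rw [hρa]
    rfl
  have hfin : ∀ R : ℝ, {g : (∀ i, H i) × Multiplicative (Fin l → ℤ) |
      ∃ x, LinearMap.snd ℝ (Fin n → ℝ) ℝ x = 1 ∧ ‖x‖ ≤ R ∧ ‖ρ g x‖ ≤ R}.Finite := by
    intro R
    have h1 := hprop (Metric.closedBall 0 R) (isCompact_closedBall _ _)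
    have hinj : Function.Injective (fun g : (∀ i, H i) × Multiplicative (Fin l → ℤ) =>
        ((f g : Γ) : (Fin n → ℝ) ≃ᵃ[ℝ] (Fin n → ℝ))) :=
      Subtype.val_injective.comp hf
    refine (h1.preimage hinj.injOn).subset ?_
    rintro g ⟨x, hx1, hxR, hgR⟩
    have hx1' : x.2 = 1 := hx1
    have e1 : ρ g x = (((f g : Γ) : (Fin n → ℝ) ≃ᵃ[ℝ] (Fin n → ℝ)) x.1, 1) := by
      rw [hρa]
      exact main_hat_one _ _ hx1'
    refine ⟨(f g).2, ((f g : Γ) : (Fin n → ℝ) ≃ᵃ[ℝ] (Fin n → ℝ)) x.1, ⟨x.1, ?_, rfl⟩, ?_⟩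
    · rw [mem_closedBall_zero_iff]
      exact (norm_fst_le _).trans hxR
    · rw [mem_closedBall_zero_iff]
      rw [e1] at hgR
      exact (norm_fst_le _).trans hgR
  obtain ⟨γ, hγ, hd, hr⟩ := lin ρ (LinearMap.snd ℝ (Fin n → ℝ) ℝ) hH hτ h0 hfin
  rw [hfinr] at hd
  refine ⟨by omega, γ, hγ, ?_⟩
  obtain ⟨x₀, hx₀, hx₀1⟩ := Ms_ne ρ (LinearMap.snd ℝ (Fin n → ℝ) ℝ) hτ h0 γ Finset.univ
  obtain ⟨M, hM⟩ : ∃ M, M = Ms ρ γ Finset.univ := ⟨_, rfl⟩
  rw [← hM] at hd hr hx₀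
  have hx₀' : x₀.2 = 1 := hx₀1
  have hmem : ∀ v : Fin n → ℝ, v ∈ AffineSubspace.mk' x₀.1
      (Submodule.comap (LinearMap.inl ℝ (Fin n → ℝ) ℝ) M) ↔ ((v, 1) : (Fin n → ℝ) × ℝ) ∈ M := by
    intro v
    rw [AffineSubspace.mem_mk', Submodule.mem_comap]
    have e1 : LinearMap.inl ℝ (Fin n → ℝ) ℝ (v -ᵥ x₀.1) = (v, 1) - x₀ := by
      refine Prod.ext rfl ?_
      change (0 : ℝ) = 1 - x₀.2
      rw [hx₀', sub_self]
    rw [e1]
    constructor
    · intro h
      have h2 := M.add_mem h hx₀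
      rwa [sub_add_cancel] at h2
    · intro h
      exact M.sub_mem h hx₀
  refine ⟨AffineSubspace.mk' x₀.1 (Submodule.comap (LinearMap.inl ℝ (Fin n → ℝ) ℝ) M),
    ⟨x₀.1, ?_⟩, ?_, ?_⟩
  · exact AffineSubspace.self_mem_mk' _ _
  · rw [AffineSubspace.direction_mk']
    have e2 : finrank ℝ (Submodule.comap (LinearMap.inl ℝ (Fin n → ℝ) ℝ) M) =
        finrank ℝ (Submodule.map (LinearMap.inl ℝ (Fin n → ℝ) ℝ)
          (Submodule.comap (LinearMap.inl ℝ (Fin n → ℝ) ℝ) M)) :=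
      (LinearEquiv.finrank_eq (Submodule.equivMapOfInjective _ LinearMap.inl_injective _))
    have hlt : Submodule.map (LinearMap.inl ℝ (Fin n → ℝ) ℝ)
        (Submodule.comap (LinearMap.inl ℝ (Fin n → ℝ) ℝ) M) < M := by
      refine lt_of_le_of_ne (Submodule.map_comap_le _ _) ?_
      intro he
      rw [← he] at hx₀
      obtain ⟨v, -, hv⟩ := hx₀
      have h3 := congrArg Prod.snd hv
      rw [hx₀'] at h3
      exact zero_ne_one h3
    have h4 := Submodule.finrank_lt_finrank_of_lt hlt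
    omega
  · intro g hg x hx
    rw [hmem] at hx ⊢
    rw [hM] at hx ⊢
    have h5 := Ms_inv ρ γ Finset.univ (main_hat g) (by
      intro i _
      rw [hρa, emb_apply]
      have h6 := hg i
      change main_hat g * main_hat _ = main_hat _ * main_hat g
      rw [← map_mul, ← map_mul, h6]) _ hx
    rwa [main_hat_one g _ rfl] at h5

end Pool.Agent.H35.AP
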